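import Pool.Agent.Lib_helper23.PG.R

/-! Large bins of integers whose cross differences all avoid a set, with a colour that is constant
on every pair of bins. -/

set_option autoImplicit false

namespace Pool.Agent.SM

open Finset Pool.Agent.Lib_helper23.PG

variable {κ : Type} [Fintype κ] [Nonempty κ]

/-- coloured groups: for every size `K` there are `r` sets of `K` integers, the `i`-th one in the
class `a i` modulo `W` and below the `j`-th one for `i < j`, such that all the differences between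
the `i`-th and the `j`-th one are bad for the colour `c i j` -/
def CG (W : ℕ) (bad : κ → ℕ → Prop) (a : ℕ → ZMod W) (r : ℕ) (c : ℕ → ℕ → κ) : Prop :=
  ∀ K : ℕ, ∃ G : ℕ → Finset ℕ, (∀ i < r, (G i).card = K) ∧
    (∀ i < r, ∀ x ∈ G i, ((x : ℕ) : ZMod W) = a i) ∧
    (∀ i j, i < j → j < r → ∀ x ∈ G i, ∀ y ∈ G j, x < y ∧ bad (c i j) (y - x))

omit [Fintype κ] [Nonempty κ] in
lemma cg_zero (W : ℕ) (bad : κ → ℕ → Prop) (a : ℕ → ZMod W) (c : ℕ → ℕ → κ) : CG W bad a 0 c :=
  fun _ => ⟨fun _ => ∅, fun i hi => absurd hi (by omega), fun i hi => absurd hi (by omega),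
    fun i j _ hj => absurd hj (by omega)⟩

/-- one more bin, with a colour pattern depending on the size -/
lemma cg_step_size {W : ℕ} {bad : κ → ℕ → Prop} {E : Set ℕ}
    (hE : ∀ m, m ∉ E → ∃ e, bad e m) {g : ZMod W → ℝ} (hg : ExtMod W E g) {r : ℕ}
    {a : ℕ → ZMod W} {c : ℕ → ℕ → κ} (ha : CG W bad a r c)
    (hc : ∑ i ∈ range r, g (a r - a i) < 1) (K : ℕ) :
    ∃ cn : Fin r → κ, ∃ G : Fin r → Finset ℕ, ∃ B : Finset ℕ,
      (∀ i, (G i).card = K) ∧ B.card = K ∧ (∀ i, ∀ x ∈ G i, ((x : ℕ) : ZMod W) = a i) ∧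
      (∀ b ∈ B, ((b : ℕ) : ZMod W) = a r) ∧
      (∀ i j : Fin r, i < j → ∀ x ∈ G i, ∀ y ∈ G j, x < y ∧ bad (c i j) (y - x)) ∧
      (∀ i, ∀ x ∈ G i, ∀ b ∈ B, x < b ∧ bad (cn i) (b - x)) := by
  classical
  rcases Nat.eq_zero_or_pos K with hK0 | hKpos
  · subst hK0
    refine ⟨fun _ => Classical.arbitrary κ, fun _ => ∅, ∅, fun _ => rfl, rfl, ?_, ?_, ?_, ?_⟩ <;>
      simp
  set q : ℕ := Fintype.card κ with hq
  have hqpos : 0 < q := Fintype.card_pos
  set η : ℝ := 1 - ∑ i ∈ range r, g (a r - a i) with hη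
  have hηpos : 0 < η := by linarith
  obtain ⟨M, hM⟩ := exists_nat_gt (2 * ((q * K : ℕ) : ℝ) / η)
  have hM' : 2 * ((q * K : ℕ) : ℝ) < M * η := by rwa [div_lt_iff₀ hηpos] at hM
  have hMpos : (0:ℝ) < M := by
    have : 0 ≤ 2 * ((q * K : ℕ) : ℝ) / η := by positivity
    linarith
  obtain ⟨G₀, hG1, hG2, hG3⟩ := ha M
  set G : Fin r → Finset ℕ := fun i => G₀ i with hGdef
  have hGc : ∀ i : Fin r, (G i).card = M := fun i => hG1 i i.2
  have hGa : ∀ i : Fin r, ∀ x ∈ G i, ((x : ℕ) : ZMod W) = a i := fun i => hG2 i i.2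
  -- good new points
  set Good : Set ℕ := {b | (∀ i, ∀ x ∈ G i, x < b) ∧ ((b : ℕ) : ZMod W) = a r ∧
    ∀ i, q * K ≤ ((G i).filter (fun x => b - x ∉ E)).card} with hGood
  have hinf : Good.Infinite := by
    rw [Set.infinite_iff_exists_gt]
    intro N
    set N' : ℕ := N + ∑ i, ∑ x ∈ G i, x + 1 with hN'
    obtain ⟨b, hb1, hb2, hb3⟩ := hg (Σ i : Fin r, (G i : Finset ℕ))
      (fun q => (q.2 : ℕ)) (a r) N' (M * η / 2) (by positivity)
    refine ⟨b, ⟨?_, hb2, ?_⟩, by omega⟩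
    · intro i x hx
      have h1 : x ≤ ∑ x ∈ G i, x := Finset.single_le_sum (f := fun x => x)
        (fun _ _ => Nat.zero_le _) hx
      have h2 : ∑ x ∈ G i, x ≤ ∑ i, ∑ x ∈ G i, x :=
        Finset.single_le_sum (f := fun i => ∑ x ∈ G i, x) (fun _ _ => Nat.zero_le _)
          (Finset.mem_univ i)
      omega
    · intro i
      have e1 : ∑ q : (Σ i : Fin r, (G i : Finset ℕ)), (if b - (q.2 : ℕ) ∈ E then (1:ℝ) else 0) =
          ∑ i, (((G i).filter (fun x => b - x ∈ E)).card : ℝ) := by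
        rw [Fintype.sum_sigma]
        refine Finset.sum_congr rfl fun i _ => ?_
        rw [← Finset.sum_boole, ← Finset.sum_coe_sort (G i)]
      have e2 : ∑ q : (Σ i : Fin r, (G i : Finset ℕ)), g (a r - (((q.2 : ℕ) : ℕ) : ZMod W)) =
          M * ∑ i ∈ range r, g (a r - a i) := by
        rw [Fintype.sum_sigma, Finset.mul_sum, ← Fin.sum_univ_eq_sum_range
          (fun i => (M : ℝ) * g (a r - a i))]
        refine Finset.sum_congr rfl fun i _ => ?_
        have : ∀ x : (G i : Finset ℕ), g (a r - (((x : ℕ) : ℕ) : ZMod W)) = g (a r - a i) := by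
          intro x
          rw [hGa i x x.2]
        rw [Finset.sum_congr rfl fun x _ => this x, Finset.sum_const, Finset.card_univ,
          Fintype.card_coe, hGc, nsmul_eq_mul]
      rw [e1, e2] at hb3
      have h1 : (((G i).filter (fun x => b - x ∈ E)).card : ℝ) ≤
          ∑ i, (((G i).filter (fun x => b - x ∈ E)).card : ℝ) :=
        Finset.single_le_sum (f := fun i => (((G i).filter (fun x => b - x ∈ E)).card : ℝ))
          (fun _ _ => by positivity) (Finset.mem_univ i)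
      have h2 : ((G i).filter (fun x => b - x ∈ E)).card +
          ((G i).filter (fun x => b - x ∉ E)).card = M := by
        rw [← hGc i]
        exact Finset.card_filter_add_card_filter_not _
      have h3 : (((G i).filter (fun x => b - x ∈ E)).card : ℝ) +
          ((G i).filter (fun x => b - x ∉ E)).card = M := by exact_mod_cast h2
      have h4 : ((q * K : ℕ) : ℝ) ≤ ((G i).filter (fun x => b - x ∉ E)).card := by
        have h5 : M * ∑ i ∈ range r, g (a r - a i) = M - M * η := by rw [hη]; ring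
        linarith
      exact_mod_cast h4
  -- pigeonhole for the colour, at a fixed new point
  have hsub : ∀ b ∈ Good, ∀ i, ∃ T : Finset ℕ, ∃ e : κ, T ⊆ G i ∧ T.card = K ∧
      ∀ x ∈ T, bad e (b - x) := by
    intro b hb i
    have hcol : ∀ x, ∃ e : κ, x ∈ (G i).filter (fun x => b - x ∉ E) → bad e (b - x) := by
      intro x
      by_cases hx : x ∈ (G i).filter (fun x => b - x ∉ E)
      · obtain ⟨e, he⟩ := hE _ (Finset.mem_filter.1 hx).2
        exact ⟨e, fun _ => he⟩
      · exact ⟨Classical.arbitrary κ, fun h => absurd h hx⟩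
    choose col hcol using hcol
    obtain ⟨e, _, he⟩ := Finset.exists_le_card_fiber_of_mul_le_card_of_maps_to
      (s := (G i).filter (fun x => b - x ∉ E)) (t := (Finset.univ : Finset κ)) (f := col)
      (fun _ _ => Finset.mem_univ _) ⟨Classical.arbitrary κ, Finset.mem_univ _⟩
      (n := K) (by rw [Finset.card_univ]; exact hb.2.2 i)
    obtain ⟨T, hT1, hT2⟩ := Finset.exists_subset_card_eq he
    refine ⟨T, e, fun x hx => ?_, hT2, fun x hx => ?_⟩
    · exact (Finset.mem_filter.1 (Finset.mem_filter.1 (hT1 hx)).1).1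
    · have h1 := Finset.mem_filter.1 (hT1 hx)
      have h2 := hcol x h1.1
      rwa [h1.2] at h2
  choose! T e hT1 hT2 hT3 using hsub
  -- pigeonhole over the new points
  set Y : Finset ((Fin r → Finset ℕ) × (Fin r → κ)) :=
    (Fintype.piFinset (fun i => (G i).powerset)) ×ˢ Finset.univ with hY
  obtain ⟨B, hB1, hB2⟩ := hinf.exists_subset_card_eq (Y.card * K)
  have hmaps : ∀ b ∈ B, ((T b, e b) : (Fin r → Finset ℕ) × (Fin r → κ)) ∈ Y := by
    intro b hb
    rw [hY, Finset.mem_product]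
    refine ⟨?_, Finset.mem_univ _⟩
    rw [Fintype.mem_piFinset]
    intro i
    rw [Finset.mem_powerset]
    exact hT1 b (hB1 hb) i
  have hYne : Y.Nonempty := by
    refine ⟨(fun _ => ∅, fun _ => Classical.arbitrary κ), ?_⟩
    rw [hY, Finset.mem_product]
    refine ⟨?_, Finset.mem_univ _⟩
    rw [Fintype.mem_piFinset]
    intro i
    simp
  obtain ⟨y, hyY, hy⟩ := Finset.exists_le_card_fiber_of_mul_le_card_of_maps_to hmaps hYne
    (le_of_eq hB2.symm)
  obtain ⟨B', hB'1, hB'2⟩ := Finset.exists_subset_card_eq hy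
  have hB'good : ∀ b ∈ B', b ∈ Good ∧ T b = y.1 ∧ e b = y.2 := by
    intro b hb
    have := Finset.mem_filter.1 (hB'1 hb)
    refine ⟨hB1 this.1, ?_, ?_⟩
    · rw [← this.2]
    · rw [← this.2]
  obtain ⟨b0, hb0⟩ : B'.Nonempty := by
    rw [← Finset.card_pos, hB'2]; exact hKpos
  have hyG : ∀ i, y.1 i ⊆ G i := fun i => by
    have h1 := (hB'good b0 hb0)
    rw [← h1.2.1]
    exact hT1 b0 h1.1 i
  have hyc : ∀ i, (y.1 i).card = K := fun i => by
    have h1 := (hB'good b0 hb0)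
    rw [← h1.2.1]
    exact hT2 b0 h1.1 i
  refine ⟨y.2, y.1, B', hyc, hB'2, fun i x hx => hGa i x (hyG i hx),
    fun b hb => (hB'good b hb).1.2.1, ?_, ?_⟩
  · intro i j hij x hx z hz
    exact hG3 i j hij j.2 x (hyG i hx) z (hyG j hz)
  · intro i x hx b hb
    have h1 := hB'good b hb
    refine ⟨h1.1.1 i x (hyG i hx), ?_⟩
    have h2 := hT3 b h1.1 i x (by rw [h1.2.1]; exact hx)
    rwa [h1.2.2] at h2

/-- one more bin -/
lemma cg_succ {W : ℕ} {bad : κ → ℕ → Prop} {E : Set ℕ}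
    (hE : ∀ m, m ∉ E → ∃ e, bad e m) {g : ZMod W → ℝ} (hg : ExtMod W E g) {r : ℕ}
    {a : ℕ → ZMod W} {c : ℕ → ℕ → κ} (ha : CG W bad a r c)
    (hc : ∑ i ∈ range r, g (a r - a i) < 1) : ∃ c', CG W bad a (r + 1) c' := by
  classical
  set Q : ℕ → (Fin r → κ) → Prop := fun K cn => ∃ G : Fin r → Finset ℕ, ∃ B : Finset ℕ,
      (∀ i, (G i).card = K) ∧ B.card = K ∧ (∀ i, ∀ x ∈ G i, ((x : ℕ) : ZMod W) = a i) ∧
      (∀ b ∈ B, ((b : ℕ) : ZMod W) = a r) ∧
      (∀ i j : Fin r, i < j → ∀ x ∈ G i, ∀ y ∈ G j, x < y ∧ bad (c i j) (y - x)) ∧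
      (∀ i, ∀ x ∈ G i, ∀ b ∈ B, x < b ∧ bad (cn i) (b - x)) with hQ
  have hmono : ∀ K K' cn, K ≤ K' → Q K' cn → Q K cn := by
    rintro K K' cn hKK ⟨G, B, h1, h2, h3, h4, h5, h6⟩
    have hG : ∀ i, ∃ T ⊆ G i, T.card = K := fun i =>
      Finset.exists_subset_card_eq (by rw [h1]; exact hKK)
    choose T hT1 hT2 using hG
    obtain ⟨B', hB1, hB2⟩ := Finset.exists_subset_card_eq (s := B) (n := K) (by rw [h2]; exact hKK)
    exact ⟨T, B', hT2, hB2, fun i x hx => h3 i x (hT1 i hx), fun b hb => h4 b (hB1 hb),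
      fun i j hij x hx y hy => h5 i j hij x (hT1 i hx) y (hT1 j hy),
      fun i x hx b hb => h6 i x (hT1 i hx) b (hB1 hb)⟩
  have hex : ∃ cn, ∀ K, Q K cn := by
    by_contra hcon
    push Not at hcon
    choose Kf hKf using hcon
    obtain ⟨cn, hcn⟩ := cg_step_size hE hg ha hc (Finset.univ.sup Kf)
    exact hKf cn (hmono _ _ _ (Finset.le_sup (Finset.mem_univ cn)) hcn)
  obtain ⟨cn, hcn⟩ := hex
  refine ⟨fun i j => if h : i < r ∧ j = r then cn ⟨i, h.1⟩ else c i j, fun K => ?_⟩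
  obtain ⟨G, B, h1, h2, h3, h4, h5, h6⟩ := hcn K
  refine ⟨fun i => if h : i < r then G ⟨i, h⟩ else B, ?_, ?_, ?_⟩
  · intro i _
    by_cases hi : i < r
    · simp only [hi, dif_pos]; exact h1 _
    · simp only [hi, dif_neg, not_false_eq_true]; exact h2
  · intro i hir
    by_cases hi : i < r
    · simp only [hi, dif_pos]; exact h3 ⟨i, hi⟩
    · have : i = r := by omega
      subst this
      simp only [hi, dif_neg, not_false_eq_true]; exact h4
  · intro i j hij hj
    have hi : i < r := by omega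
    by_cases hjr : j < r
    · have hne : j ≠ r := by omega
      simp only [hi, hjr, hne, dif_pos, dif_neg, not_false_eq_true, and_false]
      exact h5 ⟨i, hi⟩ ⟨j, hjr⟩ (by exact hij)
    · have hj' : j = r := by omega
      subst hj'
      simp only [hi, hjr, dif_pos, dif_neg, not_false_eq_true, and_self]
      exact h6 ⟨i, hi⟩

/-- all the bins -/
lemma cg_all {W : ℕ} {bad : κ → ℕ → Prop} {E : Set ℕ}
    (hE : ∀ m, m ∉ E → ∃ e, bad e m) {g : ZMod W → ℝ} (hg : ExtMod W E g)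
    {a : ℕ → ZMod W} : ∀ R : ℕ, (∀ r < R, ∑ i ∈ range r, g (a r - a i) < 1) →
      ∃ c, CG W bad a R c
  | 0, _ => ⟨fun _ _ => Classical.arbitrary κ, cg_zero _ _ _ _⟩
  | R + 1, h => by
      obtain ⟨c, hc⟩ := cg_all hE hg (a := a) R (fun r hr => h r (by omega))
      exact cg_succ hE hg hc (h R (by omega))

end Pool.Agent.SM
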