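import Mathlib

/-! Ramsey numbers of `K_4`: finitely many colours, and `R(4,4) ≤ 18`. -/

set_option autoImplicit false

namespace Pool.Agent.SM

open Finset

/-- every colouring of the pairs of `{0, ..., R - 1}` has four points all of whose pairs have the
same colour -/
def Mono4 (κ : Type) (R : ℕ) : Prop :=
  ∀ c : ℕ → ℕ → κ, ∃ f : Fin 4 → ℕ, StrictMono f ∧ (∀ i, f i < R) ∧
    ∃ e, ∀ i j, i < j → c (f i) (f j) = e

lemma Mono4.mono {κ : Type} {R R' : ℕ} (h : Mono4 κ R) (hR : R ≤ R') : Mono4 κ R' := by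
  intro c
  obtain ⟨f, h1, h2, h3⟩ := h c
  exact ⟨f, h1, fun i => (h2 i).trans_le hR, h3⟩

lemma mono4_one : Mono4 (Fin 1) 4 := by
  intro c
  refine ⟨fun i => i, fun i j h => h, fun i => i.2, 0, fun i j _ => Subsingleton.elim _ _⟩

section General

/-- end-homogeneous sequences -/
lemma end_hom (k : ℕ) : ∀ m : ℕ, ∀ c : ℕ → ℕ → Fin k, ∀ S : Finset ℕ,
    ∑ j ∈ range m, k ^ j < S.card →
    ∃ f : Fin (m + 1) → ℕ, StrictMono f ∧ (∀ i, f i ∈ S) ∧ ∃ d : Fin (m + 1) → Fin k,
      ∀ i j, i < j → c (f i) (f j) = d i := by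
  classical
  intro m
  induction m with
  | zero =>
    intro c S hS
    obtain ⟨x, hx⟩ : S.Nonempty := Finset.card_pos.1 (by omega)
    refine ⟨fun _ => x, ?_, fun _ => hx, fun _ => c x x, ?_⟩
    · intro i j hij
      exact absurd hij (by rw [Fin.lt_def]; omega)
    · intro i j hij
      exact absurd hij (by rw [Fin.lt_def]; omega)
  | succ m ih =>
    intro c S hS
    have hne : S.Nonempty := Finset.card_pos.1 (by omega)
    set x := S.min' hne with hx
    have hxS : x ∈ S := Finset.min'_mem _ _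
    have hsum : ∑ j ∈ range (m + 1), k ^ j = k * ∑ j ∈ range m, k ^ j + 1 := by
      rw [Finset.sum_range_succ', Finset.mul_sum]
      simp [pow_succ, mul_comm]
    have hcard : Fintype.card (Fin k) * (∑ j ∈ range m, k ^ j) < (S.erase x).card := by
      rw [Finset.card_erase_of_mem hxS, Fintype.card_fin]; omega
    obtain ⟨e, _, he⟩ := Finset.exists_lt_card_fiber_of_mul_lt_card_of_maps_to
      (s := S.erase x) (t := (Finset.univ : Finset (Fin k))) (f := fun y => c x y)
      (fun _ _ => Finset.mem_univ _)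
      (n := ∑ j ∈ range m, k ^ j) (by rw [Finset.card_univ]; exact hcard)
    obtain ⟨f, hf1, hf2, d, hd⟩ := ih c _ he
    have hf3 : ∀ i, f i ∈ S ∧ x < f i ∧ c x (f i) = e := by
      intro i
      have h1 := Finset.mem_filter.1 (hf2 i)
      have h2 := Finset.mem_erase.1 h1.1
      exact ⟨h2.2, lt_of_le_of_ne (Finset.min'_le _ _ h2.2) (Ne.symm h2.1), h1.2⟩
    refine ⟨Fin.cons x f, ?_, ?_, Fin.cons e d, ?_⟩
    · intro i j
      refine Fin.cases ?_ (fun i => ?_) i <;> refine Fin.cases ?_ (fun j => ?_) j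
      · intro h; exact absurd h (lt_irrefl _)
      · intro _; exact (hf3 j).2.1
      · intro h; exact absurd h (by simp)
      · intro h; exact hf1 (Fin.succ_lt_succ_iff.1 h)
    · intro i
      refine Fin.cases hxS (fun i => (hf3 i).1) i
    · intro i j
      refine Fin.cases ?_ (fun i => ?_) i <;> refine Fin.cases ?_ (fun j => ?_) j
      · intro h; exact absurd h (lt_irrefl _)
      · intro _; exact (hf3 j).2.2
      · intro h; exact absurd h (by simp)
      · intro h; exact hd i j (Fin.succ_lt_succ_iff.1 h)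

/-- every finite number of colours has a Ramsey number for `K_4` -/
lemma mono4_geom (k : ℕ) : Mono4 (Fin k) (∑ j ∈ range (2 * k + 1), k ^ j + 1) := by
  classical
  intro c
  obtain ⟨f, hf1, hf2, d, hd⟩ := end_hom k (2 * k + 1) c
    (Finset.range (∑ j ∈ range (2 * k + 1), k ^ j + 1)) (by simp)
  obtain ⟨e, _, he⟩ := Finset.exists_lt_card_fiber_of_mul_lt_card_of_maps_to
    (s := (Finset.univ : Finset (Fin (2 * k + 1)))) (t := (Finset.univ : Finset (Fin k)))
    (f := fun i => d i.castSucc) (fun _ _ => Finset.mem_univ _)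
    (n := 2) (by rw [Finset.card_univ, Finset.card_univ, Fintype.card_fin, Fintype.card_fin]; omega)
  obtain ⟨T, hT1, hT2⟩ := Finset.exists_subset_card_eq (Nat.succ_le_of_lt he)
  set g := T.orderEmbOfFin hT2 with hg
  have hgm : ∀ i, d (g i).castSucc = e := fun i =>
    (Finset.mem_filter.1 (hT1 (Finset.orderEmbOfFin_mem T hT2 i))).2
  set h : Fin 4 → Fin (2 * k + 1 + 1) := Fin.snoc (α := fun _ => Fin (2 * k + 1 + 1))
    (fun i => (g i).castSucc) (Fin.last _) with hh
  have hmono : StrictMono h := by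
    intro i j
    refine Fin.lastCases ?_ (fun i => ?_) i <;> refine Fin.lastCases ?_ (fun j => ?_) j
    · intro h; exact absurd h (lt_irrefl _)
    · intro h; exact absurd h (by simpa using (Fin.castSucc_lt_last j).le)
    · intro _
      rw [hh, Fin.snoc_last, Fin.snoc_castSucc]
      exact Fin.castSucc_lt_last _
    · intro h'
      rw [hh, Fin.snoc_castSucc, Fin.snoc_castSucc, Fin.castSucc_lt_castSucc_iff]
      exact g.strictMono (Fin.castSucc_lt_castSucc_iff.1 h')
  refine ⟨fun i => f (h i), hf1.comp hmono, fun i => Finset.mem_range.1 (hf2 _), e, ?_⟩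
  intro i j hij
  rw [hd _ _ (hmono hij)]
  revert hij
  refine Fin.lastCases ?_ (fun i => ?_) i
  · intro h'
    exact absurd h' (not_lt.2 (Fin.le_last _))
  · intro _
    rw [hh, Fin.snoc_castSucc]
    exact hgm i

lemma geom_le (k : ℕ) (hk : 2 ≤ k) (m : ℕ) : ∑ j ∈ range (m + 1), k ^ j ≤ 2 * k ^ m := by
  induction m with
  | zero => simp
  | succ m ih =>
    rw [Finset.sum_range_succ]
    have h1 : 2 * k ^ m ≤ k ^ (m + 1) := by
      rw [pow_succ, mul_comm]
      exact Nat.mul_le_mul_left _ hk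
    omega

lemma mono4_pow (k : ℕ) (hk : 2 ≤ k) : Mono4 (Fin k) (2 * k ^ (2 * k) + 1) :=
  (mono4_geom k).mono (Nat.succ_le_succ (geom_le k hk (2 * k)))

end General

section Two

/-- `Ram a b n`: in every set of at least `n` integers, a symmetric relation has a clique of size `a`
or an independent set of size `b` -/
def Ram (a b n : ℕ) : Prop :=
  ∀ P : ℕ → ℕ → Prop, (∀ x y, P x y → P y x) → ∀ S : Finset ℕ, n ≤ S.card →
    (∃ T ⊆ S, T.card = a ∧ ∀ x ∈ T, ∀ y ∈ T, x ≠ y → P x y) ∨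
    (∃ T ⊆ S, T.card = b ∧ ∀ x ∈ T, ∀ y ∈ T, x ≠ y → ¬ P x y)

lemma Ram.symm {a b n : ℕ} (h : Ram a b n) : Ram b a n := by
  intro P hP S hS
  rcases h (fun x y => ¬ P x y) (fun x y hxy h' => hxy (hP _ _ h')) S hS with ⟨T, h1, h2, h3⟩ |
    ⟨T, h1, h2, h3⟩
  · exact Or.inr ⟨T, h1, h2, h3⟩
  · refine Or.inl ⟨T, h1, h2, fun x hx y hy hxy => ?_⟩
    exact not_not.1 (h3 x hx y hy hxy)

lemma ram_two (b : ℕ) : Ram 2 b b := by
  classical
  intro P hP S hS
  by_cases h : ∃ x ∈ S, ∃ y ∈ S, x ≠ y ∧ P x y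
  · obtain ⟨x, hx, y, hy, hxy, hp⟩ := h
    left
    refine ⟨{x, y}, ?_, Finset.card_pair hxy, ?_⟩
    · intro z hz
      rcases Finset.mem_insert.1 hz with rfl | hz
      · exact hx
      · rw [Finset.mem_singleton.1 hz]; exact hy
    · intro u hu v hv huv
      simp only [Finset.mem_insert, Finset.mem_singleton] at hu hv
      rcases hu with rfl | rfl <;> rcases hv with rfl | rfl
      · exact absurd rfl huv
      · exact hp
      · exact hP _ _ hp
      · exact absurd rfl huv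
  · push Not at h
    right
    obtain ⟨T, hT1, hT2⟩ := Finset.exists_subset_card_eq hS
    exact ⟨T, hT1, hT2, fun x hx y hy hxy => h x (hT1 hx) y (hT1 hy) hxy⟩

/-- a vertex with many neighbours -/
lemma ram_nbr {a b n : ℕ} (h : Ram a (b + 1) n) (P : ℕ → ℕ → Prop) (hP : ∀ x y, P x y → P y x)
    (S : Finset ℕ) (v : ℕ) (hv : v ∈ S) [DecidablePred (fun w => v ≠ w ∧ P v w)]
    (hn : n ≤ (S.filter (fun w => v ≠ w ∧ P v w)).card) :
    (∃ T ⊆ S, T.card = a + 1 ∧ ∀ x ∈ T, ∀ y ∈ T, x ≠ y → P x y) ∨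
    (∃ T ⊆ S, T.card = b + 1 ∧ ∀ x ∈ T, ∀ y ∈ T, x ≠ y → ¬ P x y) := by
  classical
  rcases h P hP _ hn with ⟨T, h1, h2, h3⟩ | ⟨T, h1, h2, h3⟩
  · left
    have hvT : v ∉ T := fun hvT => (Finset.mem_filter.1 (h1 hvT)).2.1 rfl
    refine ⟨insert v T, ?_, by rw [Finset.card_insert_of_notMem hvT, h2], ?_⟩
    · intro z hz
      rcases Finset.mem_insert.1 hz with rfl | hz
      · exact hv
      · exact (Finset.mem_filter.1 (h1 hz)).1
    · intro x hx y hy hxy
      rcases Finset.mem_insert.1 hx with hx' | hx' <;> rcases Finset.mem_insert.1 hy with hy' | hy'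
      · exact absurd (hx'.trans hy'.symm) hxy
      · rw [hx']; exact (Finset.mem_filter.1 (h1 hy')).2.2
      · rw [hy']; exact hP _ _ (Finset.mem_filter.1 (h1 hx')).2.2
      · exact h3 x hx' y hy' hxy
  · right
    exact ⟨T, h1.trans (Finset.filter_subset _ _), h2, h3⟩

lemma ram_nbr' {a b n : ℕ} (h : Ram (a + 1) b n) (P : ℕ → ℕ → Prop) (hP : ∀ x y, P x y → P y x)
    (S : Finset ℕ) (v : ℕ) (hv : v ∈ S) [DecidablePred (fun w => v ≠ w ∧ ¬ P v w)]
    (hn : n ≤ (S.filter (fun w => v ≠ w ∧ ¬ P v w)).card) :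
    (∃ T ⊆ S, T.card = a + 1 ∧ ∀ x ∈ T, ∀ y ∈ T, x ≠ y → P x y) ∨
    (∃ T ⊆ S, T.card = b + 1 ∧ ∀ x ∈ T, ∀ y ∈ T, x ≠ y → ¬ P x y) := by
  rcases ram_nbr (h.symm) (fun x y => ¬ P x y) (fun x y hxy h' => hxy (hP _ _ h')) S v hv hn with
    ⟨T, h1, h2, h3⟩ | ⟨T, h1, h2, h3⟩
  · exact Or.inr ⟨T, h1, h2, h3⟩
  · refine Or.inl ⟨T, h1, h2, fun x hx y hy hxy => ?_⟩
    exact not_not.1 (h3 x hx y hy hxy)

lemma card_split (P : ℕ → ℕ → Prop) (S : Finset ℕ) (v : ℕ) (hv : v ∈ S)
    [DecidablePred (fun w => v ≠ w ∧ P v w)] [DecidablePred (fun w => v ≠ w ∧ ¬ P v w)] :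
    (S.filter (fun w => v ≠ w ∧ P v w)).card + (S.filter (fun w => v ≠ w ∧ ¬ P v w)).card + 1 =
      S.card := by
  classical
  rw [← Finset.card_union_of_disjoint]
  · have : S = insert v (S.filter (fun w => v ≠ w ∧ P v w) ∪ S.filter (fun w => v ≠ w ∧ ¬ P v w)) := by
      ext z
      simp only [Finset.mem_insert, Finset.mem_union, Finset.mem_filter]
      constructor
      · intro hz
        by_cases h : z = v
        · exact Or.inl h
        · by_cases h2 : P v z
          · exact Or.inr (Or.inl ⟨hz, Ne.symm h, h2⟩)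
          · exact Or.inr (Or.inr ⟨hz, Ne.symm h, h2⟩)
      · rintro (rfl | h | h)
        · exact hv
        · exact h.1
        · exact h.1
    conv_rhs => rw [this]
    rw [Finset.card_insert_of_notMem]
    simp
  · rw [Finset.disjoint_left]
    intro z hz hz'
    exact (Finset.mem_filter.1 hz').2.2 (Finset.mem_filter.1 hz).2.2

lemma ram_step {a b n₁ n₂ : ℕ} (h1 : Ram a (b + 1) n₁) (h2 : Ram (a + 1) b n₂) (hpos : 0 < n₁ + n₂) :
    Ram (a + 1) (b + 1) (n₁ + n₂) := by
  classical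
  intro P hP S hS
  obtain ⟨v, hv⟩ : S.Nonempty := Finset.card_pos.1 (by omega)
  have hc := card_split P S v hv
  by_cases h : n₁ ≤ (S.filter (fun w => v ≠ w ∧ P v w)).card
  · exact ram_nbr h1 P hP S v hv h
  · exact ram_nbr' h2 P hP S v hv (by omega)

lemma ram33 : Ram 3 3 6 := ram_step (ram_two 3) (ram_two 3).symm (by norm_num)

/-- a symmetric relation cannot have all degrees equal to `3` on nine points -/
lemma no_cubic_nine (P : ℕ → ℕ → Prop) (hP : ∀ x y, P x y → P y x) (S : Finset ℕ)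
    (hS : S.card = 9) [∀ v, DecidablePred (fun w => v ≠ w ∧ P v w)]
    (h : ∀ v ∈ S, (S.filter (fun w => v ≠ w ∧ P v w)).card = 3) : False := by
  classical
  have e1 : ∑ v ∈ S, (S.filter (fun w => v ≠ w ∧ P v w)).card = 27 := by
    rw [Finset.sum_congr rfl h, Finset.sum_const, hS]; rfl
  have e2 : ∑ v ∈ S, (S.filter (fun w => v ≠ w ∧ P v w)).card =
      ∑ v ∈ S, (S.filter (fun w => v < w ∧ P v w)).card +
      ∑ v ∈ S, (S.filter (fun w => w < v ∧ P v w)).card := by
    rw [← Finset.sum_add_distrib]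
    refine Finset.sum_congr rfl fun v _ => ?_
    rw [← Finset.card_union_of_disjoint]
    · congr 1
      ext w
      simp only [Finset.mem_union, Finset.mem_filter]
      constructor
      · rintro ⟨hw, hne, hp⟩
        rcases lt_or_gt_of_ne hne with h' | h'
        · exact Or.inl ⟨hw, h', hp⟩
        · exact Or.inr ⟨hw, h', hp⟩
      · rintro (⟨hw, h', hp⟩ | ⟨hw, h', hp⟩)
        · exact ⟨hw, h'.ne, hp⟩
        · exact ⟨hw, h'.ne', hp⟩
    · rw [Finset.disjoint_left]
      intro w hw hw'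
      have h1 := (Finset.mem_filter.1 hw).2.1
      have h2 := (Finset.mem_filter.1 hw').2.1
      omega
  have e3 : ∑ v ∈ S, (S.filter (fun w => w < v ∧ P v w)).card =
      ∑ v ∈ S, (S.filter (fun w => v < w ∧ P v w)).card := by
    simp only [Finset.card_filter]
    rw [Finset.sum_comm]
    refine Finset.sum_congr rfl fun v _ => Finset.sum_congr rfl fun w _ => ?_
    have : (v < w ∧ P w v) ↔ (v < w ∧ P v w) := ⟨fun h => ⟨h.1, hP _ _ h.2⟩, fun h => ⟨h.1, hP _ _ h.2⟩⟩
    simp only [this]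
  omega

lemma ram34 : Ram 3 4 9 := by
  classical
  intro P hP S₀ hS₀
  obtain ⟨S, hS1, hS⟩ := Finset.exists_subset_card_eq hS₀
  suffices hmain : (∃ T ⊆ S, T.card = 3 ∧ ∀ x ∈ T, ∀ y ∈ T, x ≠ y → P x y) ∨
      (∃ T ⊆ S, T.card = 4 ∧ ∀ x ∈ T, ∀ y ∈ T, x ≠ y → ¬ P x y) by
    rcases hmain with ⟨T, h1, h2⟩ | ⟨T, h1, h2⟩
    · exact Or.inl ⟨T, h1.trans hS1, h2⟩
    · exact Or.inr ⟨T, h1.trans hS1, h2⟩
  by_contra hcon
  refine no_cubic_nine P hP S hS fun v hv => ?_
  have hc := card_split P S v hv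
  have h1 : (S.filter (fun w => v ≠ w ∧ P v w)).card < 4 := by
    by_contra h
    exact hcon (ram_nbr (ram_two 4) P hP S v hv (by omega))
  have h2 : (S.filter (fun w => v ≠ w ∧ ¬ P v w)).card < 6 := by
    by_contra h
    exact hcon (ram_nbr' ram33 P hP S v hv (by omega))
  omega

lemma ram44 : Ram 4 4 18 := ram_step ram34 ram34.symm (by norm_num)

lemma mono4_two : Mono4 (Fin 2) 18 := by
  classical
  intro c
  set P : ℕ → ℕ → Prop := fun x y => (x < y ∧ c x y = 0) ∨ (y < x ∧ c y x = 0) with hP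
  have hPs : ∀ x y, P x y → P y x := fun x y h => h.symm
  have key : ∃ T : Finset ℕ, T ⊆ Finset.range 18 ∧ ∃ hT : T.card = 4, ∃ e : Fin 2,
      ∀ x ∈ T, ∀ y ∈ T, x < y → c x y = e := by
    rcases ram44 P hPs (Finset.range 18) (by simp) with ⟨T, h1, h2, h3⟩ | ⟨T, h1, h2, h3⟩
    · refine ⟨T, h1, h2, 0, fun x hx y hy hxy => ?_⟩
      rcases h3 x hx y hy hxy.ne with h | h
      · exact h.2
      · exact absurd h.1 (by omega)
    · refine ⟨T, h1, h2, 1, fun x hx y hy hxy => ?_⟩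
      have h4 := h3 x hx y hy hxy.ne
      by_contra h5
      refine h4 (Or.inl ⟨hxy, ?_⟩)
      omega
  obtain ⟨T, h1, h2, e, h3⟩ := key
  refine ⟨fun i => T.orderEmbOfFin h2 i, (T.orderEmbOfFin h2).strictMono, fun i => ?_, e, ?_⟩
  · exact Finset.mem_range.1 (h1 (Finset.orderEmbOfFin_mem T h2 i))
  · intro i j hij
    exact h3 _ (Finset.orderEmbOfFin_mem T h2 i) _ (Finset.orderEmbOfFin_mem T h2 j)
      ((T.orderEmbOfFin h2).strictMono hij)

end Two

end Pool.Agent.SM
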