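import Pool.Agent.Lib_helper17.SM.Groups
import Pool.Agent.Lib_helper17.SM.Ram

/-! A set with the four-bin property contains, for any given positive integers `a 1, ..., a k`,
all the multiples `a 1 * d, ..., a k * d` for a positive proportion of the integers `d` in every long
window. -/

set_option autoImplicit false

namespace Pool.Agent.SM

open Finset Pool.Agent.Lib_helper23.PG

lemma adm_mul {H : Finset ℕ} (hH : Admissible H) (a : ℕ) :
    Admissible (H.image (fun x => a * x)) := by
  classical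
  intro p hp
  by_cases hpa : p ∣ a
  · refine ⟨1, fun h hh hmod => ?_⟩
    obtain ⟨x, _, rfl⟩ := Finset.mem_image.1 hh
    have h1 : p ∣ a * x := hpa.mul_right x
    have h2 : (a * x) % p = 0 := Nat.mod_eq_zero_of_dvd h1
    have h3 : (a * x) % p = 1 % p := hmod
    rw [h2, Nat.mod_eq_of_lt hp.one_lt] at h3
    omega
  · obtain ⟨r, hr⟩ := hH p hp
    refine ⟨a * r, fun h hh hmod => ?_⟩
    obtain ⟨x, hx, rfl⟩ := Finset.mem_image.1 hh
    refine hr x hx ?_
    exact Nat.ModEq.cancel_left_of_coprime ((Nat.Prime.coprime_iff_not_dvd hp).2 hpa) hmod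

/-- the classes modulo `W` can be chosen above given classes modulo `Q` -/
lemma exists_classes (W Q : ℕ) [NeZero W] [NeZero Q] (hQ : Q ∣ W) {g : ZMod W → ℝ}
    (β : ℕ → ZMod Q) : ∀ R : ℕ,
      (∀ r < R, Q * ∑ i ∈ range r, cls W Q hQ g (β r - β i) < W) →
      ∃ a : ℕ → ZMod W, (∀ i < R, red W Q hQ (a i) = β i) ∧
        ∀ r < R, ∑ i ∈ range r, g (a r - a i) < 1
  | 0, _ => ⟨fun _ => 0, fun i hi => absurd hi (by omega), fun i hi => absurd hi (by omega)⟩
  | R + 1, h => by
      classical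
      obtain ⟨a, ha1, ha2⟩ := exists_classes W Q hQ (g := g) β R (fun r hr => h r (by omega))
      have hfib := card_fiber W Q hQ (β R)
      have hW : 0 < W := Nat.pos_of_ne_zero (NeZero.ne W)
      have hQ0 : (0:ℝ) < Q := by
        have := Nat.pos_of_ne_zero (NeZero.ne Q)
        exact_mod_cast this
      have hc := h R (by omega)
      set F := Finset.univ.filter (fun c => red W Q hQ c = β R) with hF
      have hsum : ∑ c ∈ F, ∑ i ∈ range R, g (c - a i) =
          ∑ i ∈ range R, cls W Q hQ g (β R - β i) := by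
        rw [Finset.sum_comm]
        refine Finset.sum_congr rfl fun i hi => ?_
        rw [hF, sum_shift, ha1 i (Finset.mem_range.1 hi)]
      have hlt : ∑ c ∈ F, ∑ i ∈ range R, g (c - a i) < ∑ c ∈ F, (1:ℝ) := by
        rw [hsum, Finset.sum_const, nsmul_eq_mul, mul_one]
        have : (Q:ℝ) * F.card = W := by exact_mod_cast hfib
        rw [← this] at hc
        exact lt_of_mul_lt_mul_left hc hQ0.le
      obtain ⟨c, hcF, hc1⟩ := Finset.exists_lt_of_sum_lt hlt
      rw [hF, Finset.mem_filter] at hcF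
      refine ⟨fun i => if i = R then c else a i, ?_, ?_⟩
      · intro i hi
        by_cases hiR : i = R
        · subst hiR; simp only [if_true]; exact hcF.2
        · simp only [hiR, if_false]; exact ha1 i (by omega)
      · intro r hr
        by_cases hrR : r = R
        · subst hrR
          simp only [if_true]
          refine lt_of_le_of_lt (le_of_eq ?_) hc1
          refine Finset.sum_congr rfl fun i hi => ?_
          have : i ≠ r := (Finset.mem_range.1 hi).ne
          simp only [this, if_false]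
        · simp only [hrR, if_false]
          refine lt_of_le_of_lt (le_of_eq ?_) (ha2 r (by omega))
          refine Finset.sum_congr rfl fun i hi => ?_
          have : i ≠ R := by
            have := Finset.mem_range.1 hi
            omega
          simp only [this, if_false]

/-- the contradiction: bins of odd numbers prime to three, cross differences bad for some
multiplier -/
lemma no_bins {k : ℕ} {D : Set ℕ} {k₀ : ℕ} (hD : HitsBins 4 k₀ D) (a : Fin k → ℕ)
    (ha : ∀ i, 0 < a i) (q W R : ℕ) (hW : ∀ p : ℕ, p.Prime → 5 ≤ p → p ≤ 4 * k₀ → p ∣ W)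
    (hR : Mono4 (Fin k) R) (cl : ℕ → ZMod W)
    (hcl : ∀ i < R, ∀ x : ℕ, ((x : ℕ) : ZMod W) = cl i → x % 2 = 1 ∧ x % 3 ≠ 0 ∧ x ≡ 1 [MOD q])
    (c : ℕ → ℕ → Fin k)
    (hG : CG W (fun (e : Fin k) m => q ∣ m → a e * m ∉ D) cl R c) : False := by
  classical
  obtain ⟨f, hf1, hf2, e, he⟩ := hR c
  obtain ⟨G, hG1, hG2, hG3⟩ := hG k₀
  have hadm : Admissible (Finset.univ.biUnion (fun i : Fin 4 => G (f i))) := by
    refine adm_groups (k := k₀) (W := W) hW (fun i => cl (f i)) (fun i => G (f i))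
      (fun i => hG1 _ (hf2 i)) (fun i => hG2 _ (hf2 i)) ?_
    intro i x hx
    have := hcl (f i) (hf2 i) x (hG2 _ (hf2 i) x hx)
    exact ⟨this.1, this.2.1⟩
  have hadm' : Admissible (Finset.univ.biUnion
      (fun i : Fin 4 => (G (f i)).image (fun x => a e * x))) := by
    have := adm_mul hadm (a e)
    rwa [Finset.biUnion_image] at this
  have hinj : Function.Injective (fun x => a e * x) := fun x y hxy =>
    Nat.eq_of_mul_eq_mul_left (ha e) hxy
  have hlt : ∀ i j : Fin 4, i < j → ∀ x ∈ G (f i), ∀ y ∈ G (f j), x < y ∧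
      (q ∣ y - x → a e * (y - x) ∉ D) := by
    intro i j hij x hx y hy
    have h1 := hG3 (f i) (f j) (hf1 hij) (hf2 j) x hx y hy
    rwa [he i j hij] at h1
  obtain ⟨i, j, hij, x, hx, y, hy, hxy, hmem⟩ := hD
    (fun i => (G (f i)).image (fun x => a e * x))
    (fun i => by rw [Finset.card_image_of_injective _ hinj]; exact hG1 _ (hf2 i)) (by
      intro i j hij
      rw [Finset.disjoint_image hinj]
      rw [Finset.disjoint_left]
      intro x hx hx'
      rcases lt_or_gt_of_ne hij with h | h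
      · exact absurd (hlt i j h x hx x hx').1 (lt_irrefl _)
      · exact absurd (hlt j i h x hx' x hx).1 (lt_irrefl _)) hadm'
  obtain ⟨x, hx', rfl⟩ := Finset.mem_image.1 hx
  obtain ⟨y, hy', rfl⟩ := Finset.mem_image.1 hy
  have hxy' : x < y := by
    by_contra h
    exact absurd hxy (not_lt.2 (Nat.mul_le_mul_left _ (not_lt.1 h)))
  have hij' : i < j := by
    rcases lt_or_gt_of_ne hij with h | h
    · exact h
    · exact absurd (hlt j i h y hy' x hx').1 (by omega)
  refine (hlt i j hij' x hx' y hy').2 ?_ ?_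
  · have h1 := (hcl (f i) (hf2 i) x (hG2 _ (hf2 i) x hx')).2.2
    have h2 := (hcl (f j) (hf2 j) y (hG2 _ (hf2 j) y hy')).2.2
    exact (Nat.modEq_iff_dvd' hxy'.le).1 (h1.trans h2.symm)
  · rw [Nat.mul_sub]
    exact hmem

/-- the multiples of `q` all of whose multiples by the `a i` are in `D` -/
def Good {k : ℕ} (D : Set ℕ) (a : Fin k → ℕ) (q : ℕ) : Set ℕ := {d | q ∣ d ∧ ∀ i, a i * d ∈ D}

lemma good_compl {k : ℕ} (hk : 0 < k) (D : Set ℕ) (a : Fin k → ℕ) (q : ℕ) (m : ℕ)
    (hm : m ∉ Good D a q) : ∃ e : Fin k, q ∣ m → a e * m ∉ D := by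
  by_cases hq : q ∣ m
  · by_contra hcon
    push Not at hcon
    exact hm ⟨hq, fun i => (hcon i).2⟩
  · exact ⟨⟨0, hk⟩, fun h => absurd h hq⟩

/-- multiples of six -/
theorem bound_six {D : Set ℕ} {k₀ : ℕ} (hD : HitsBins 4 k₀ D) {k : ℕ} (hk : 0 < k)
    (a : Fin k → ℕ) (ha : ∀ i, 0 < a i) (N : ℕ) (hN : 0 < N) (hR : Mono4 (Fin k) (N + 1))
    (ρ : ℝ) (hρ : ρ < 1 / (6 * N)) :
    ∃ L : ℕ, ∀ n ≥ L, ∀ x : ℕ, ρ * n < wcount (Good D a 6) x n := by
  by_contra hcon
  push Not at hcon
  have : Nonempty (Fin k) := ⟨⟨0, hk⟩⟩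
  set W : ℕ := 6 * (4 * k₀).factorial with hWdef
  have hWpos : 0 < W := by positivity
  have : NeZero W := ⟨hWpos.ne'⟩
  have hQW : 6 ∣ W := dvd_mul_right _ _
  obtain ⟨g, h0, _, h2, h3⟩ := exists_density_mod W (Good D a 6) ρ hcon
  have hWr : (0:ℝ) < W := by exact_mod_cast hWpos
  have hNr : (0:ℝ) < N := by exact_mod_cast hN
  have hle : cls W 6 hQW g 0 ≤ ∑ c, g c := by
    rw [← sum_cls W 6 hQW g]
    exact Finset.single_le_sum (f := fun r => cls W 6 hQW g r)
      (fun r _ => cls_nonneg W 6 hQW h0 r) (Finset.mem_univ 0)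
  have hcls0 := cls_nonneg W 6 hQW h0 0
  obtain ⟨cl, hcl1, hcl2⟩ := exists_classes W 6 hQW (g := g) (fun _ => (1 : ZMod 6)) (N + 1) (by
    intro r hr
    rw [Finset.sum_congr rfl (fun i _ => by rw [sub_self] : ∀ i ∈ range r,
      cls W 6 hQW g ((1 : ZMod 6) - 1) = cls W 6 hQW g 0), Finset.sum_const, Finset.card_range,
      nsmul_eq_mul]
    have hrN : (r:ℝ) ≤ N := by exact_mod_cast (by omega : r ≤ N)
    have h4 : ρ * (6 * N) < 1 := by rwa [lt_div_iff₀ (by positivity)] at hρ
    calc ((6:ℕ):ℝ) * (r * cls W 6 hQW g 0) ≤ 6 * (N * cls W 6 hQW g 0) := by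
          push_cast
          have := mul_le_mul_of_nonneg_right hrN hcls0
          linarith
      _ ≤ 6 * (N * (ρ * W)) := by
          have := mul_le_mul_of_nonneg_left (hle.trans h2) hNr.le
          linarith
      _ = (ρ * (6 * N)) * W := by ring
      _ < 1 * W := mul_lt_mul_of_pos_right h4 hWr
      _ = W := one_mul _)
  obtain ⟨c, hc⟩ := cg_all (κ := Fin k) (bad := fun e m => 6 ∣ m → a e * m ∉ D)
    (good_compl hk D a 6) h3 (a := cl) (N + 1) hcl2
  refine no_bins hD a ha 6 W (N + 1) ?_ hR cl ?_ c hc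
  · intro p hp _ hle
    exact ((hp.dvd_factorial).2 hle).trans (dvd_mul_left _ _)
  · intro i hi x hx
    have h5 : red W 6 hQW ((x : ℕ) : ZMod W) = 1 := by rw [hx]; exact hcl1 i hi
    rw [map_natCast] at h5
    have h6 : x ≡ 1 [MOD 6] := by
      rw [← ZMod.natCast_eq_natCast_iff, h5]; simp
    have h7 : x % 6 = 1 := h6
    exact ⟨by omega, by omega, h6⟩

/-- even numbers -/
theorem bound_two {D : Set ℕ} {k₀ : ℕ} (hD : HitsBins 4 k₀ D) {k : ℕ} (hk : 0 < k)
    (a : Fin k → ℕ) (ha : ∀ i, 0 < a i) (t : ℕ) (ht : 0 < t) (hR : Mono4 (Fin k) (2 * (t + 1)))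
    (ρ : ℝ) (hρ : ρ < 1 / (6 * t)) :
    ∃ L : ℕ, ∀ n ≥ L, ∀ x : ℕ, ρ * n < wcount (Good D a 2) x n := by
  by_contra hcon
  push Not at hcon
  have : Nonempty (Fin k) := ⟨⟨0, hk⟩⟩
  set W : ℕ := 6 * (4 * k₀).factorial with hWdef
  have hWpos : 0 < W := by positivity
  have : NeZero W := ⟨hWpos.ne'⟩
  have hQW : 6 ∣ W := dvd_mul_right _ _
  obtain ⟨g, h0, _, h2, h3⟩ := exists_density_mod W (Good D a 2) ρ hcon
  have hWr : (0:ℝ) < W := by exact_mod_cast hWpos
  have htr : (0:ℝ) < t := by exact_mod_cast ht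
  have hsum := sum_cls W 6 hQW g
  have n0 := cls_nonneg W 6 hQW h0 0
  have n2 := cls_nonneg W 6 hQW h0 2
  have n4 := cls_nonneg W 6 hQW h0 4
  have hthree : cls W 6 hQW g 0 + cls W 6 hQW g 2 + cls W 6 hQW g 4 ≤ ∑ c, g c := by
    rw [← hsum]
    have h4 : ∑ r ∈ ({0, 2, 4} : Finset (ZMod 6)), cls W 6 hQW g r ≤ ∑ r, cls W 6 hQW g r :=
      Finset.sum_le_sum_of_subset_of_nonneg (Finset.subset_univ _)
        (fun r _ _ => cls_nonneg W 6 hQW h0 r)
    rw [Finset.sum_insert (by decide), Finset.sum_pair (by decide)] at h4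
    linarith
  have htot : 6 * t * (cls W 6 hQW g 0 + cls W 6 hQW g 2 + cls W 6 hQW g 4) < W := by
    have h4 : ρ * (6 * t) < 1 := by rwa [lt_div_iff₀ (by positivity)] at hρ
    calc 6 * (t:ℝ) * _ ≤ 6 * t * (ρ * W) := by
          refine mul_le_mul_of_nonneg_left (hthree.trans h2) (by positivity)
      _ = (ρ * (6 * t)) * W := by ring
      _ < 1 * W := mul_lt_mul_of_pos_right h4 hWr
      _ = W := one_mul _
  -- the two classes
  have hab : ∃ α β : ZMod 6, (α = 1 ∨ α = 5) ∧ (β = 1 ∨ β = 5) ∧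
      6 * t * (cls W 6 hQW g 0 + 2 * cls W 6 hQW g (β - α)) < W := by
    rcases le_total (cls W 6 hQW g 2) (cls W 6 hQW g 4) with h | h
    · refine ⟨5, 1, Or.inr rfl, Or.inl rfl, ?_⟩
      have e : (1 : ZMod 6) - 5 = 2 := by decide
      rw [e]
      refine lt_of_le_of_lt (mul_le_mul_of_nonneg_left ?_ (by positivity)) htot
      linarith
    · refine ⟨1, 5, Or.inl rfl, Or.inr rfl, ?_⟩
      have e : (5 : ZMod 6) - 1 = 4 := by decide
      rw [e]
      refine lt_of_le_of_lt (mul_le_mul_of_nonneg_left ?_ (by positivity)) htot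
      linarith
  obtain ⟨α, β, hα, hβ, hlt⟩ := hab
  have nδ := cls_nonneg W 6 hQW h0 (β - α)
  set z := cls W 6 hQW g 0 with hz
  set y := cls W 6 hQW g (β - α) with hy
  obtain ⟨cl, hcl1, hcl2⟩ := exists_classes W 6 hQW (g := g)
    (fun i => if i < t + 1 then α else β) (2 * (t + 1)) (by
    intro r hr
    by_cases hrt : r < t + 1
    · have e : ∀ i ∈ range r, cls W 6 hQW g ((if r < t + 1 then α else β) -
          (if i < t + 1 then α else β)) = z := by
        intro i hi
        have hi' := Finset.mem_range.1 hi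
        rw [if_pos hrt, if_pos (by omega), sub_self]
      rw [Finset.sum_congr rfl e, Finset.sum_const, Finset.card_range, nsmul_eq_mul]
      have hrN : (r:ℝ) ≤ t := by exact_mod_cast (by omega : r ≤ t)
      have h5 := mul_le_mul_of_nonneg_right hrN n0
      have h6 : 0 ≤ (t:ℝ) * y := by positivity
      push_cast
      nlinarith
    · have e : ∑ i ∈ range r, cls W 6 hQW g ((if r < t + 1 then α else β) -
          (if i < t + 1 then α else β)) = (t + 1) * y + (r - (t + 1) : ℝ) * z := by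
        obtain ⟨s, rfl⟩ : ∃ s, r = (t + 1) + s := ⟨r - (t + 1), by omega⟩
        rw [Finset.sum_range_add]
        congr 1
        · rw [Finset.sum_congr rfl (fun i hi => by
            rw [if_neg hrt, if_pos (Finset.mem_range.1 hi)] : ∀ i ∈ range (t + 1),
            cls W 6 hQW g ((if t + 1 + s < t + 1 then α else β) -
              (if i < t + 1 then α else β)) = y), Finset.sum_const, Finset.card_range,
            nsmul_eq_mul]
          push_cast
          ring
        · rw [Finset.sum_congr rfl (fun i hi => by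
            rw [if_neg hrt, if_neg (by omega), sub_self] : ∀ i ∈ range s,
            cls W 6 hQW g ((if t + 1 + s < t + 1 then α else β) -
              (if t + 1 + i < t + 1 then α else β)) = z), Finset.sum_const, Finset.card_range,
            nsmul_eq_mul]
          push_cast
          ring
      rw [e]
      have hr1 : ((r:ℝ) - (t + 1)) ≤ t := by
        have : r ≤ 2 * t + 1 := by omega
        have : (r:ℝ) ≤ 2 * t + 1 := by exact_mod_cast this
        linarith
      have h5 := mul_le_mul_of_nonneg_right hr1 n0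
      -- (t+1) y + t z < W / 6
      have h1t : (1:ℝ) ≤ t := by exact_mod_cast ht
      push_cast
      -- from 6 t (z + 2 y) < W
      have h7 : (t + 1) * y + t * z ≤ t * (z + 2 * y) := by nlinarith
      nlinarith)
  obtain ⟨c, hc⟩ := cg_all (κ := Fin k) (bad := fun e m => 2 ∣ m → a e * m ∉ D)
    (good_compl hk D a 2) h3 (a := cl) (2 * (t + 1)) hcl2
  refine no_bins hD a ha 2 W (2 * (t + 1)) ?_ hR cl ?_ c hc
  · intro p hp _ hle
    exact ((hp.dvd_factorial).2 hle).trans (dvd_mul_left _ _)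
  · intro i hi x hx
    have h5 : red W 6 hQW ((x : ℕ) : ZMod W) = (if i < t + 1 then α else β) := by
      rw [hx]; exact hcl1 i hi
    rw [map_natCast] at h5
    have h6 : x ≡ 1 [MOD 6] ∨ x ≡ 5 [MOD 6] := by
      have h7 : ((x : ℕ) : ZMod 6) = 1 ∨ ((x : ℕ) : ZMod 6) = 5 := by
        rw [h5]
        split_ifs
        · exact hα
        · exact hβ
      rcases h7 with h7 | h7
      · left; rw [← ZMod.natCast_eq_natCast_iff, h7]; simp
      · right; rw [← ZMod.natCast_eq_natCast_iff, h7]; simp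
    have h7 : x % 6 = 1 ∨ x % 6 = 5 := h6
    refine ⟨by omega, by omega, ?_⟩
    show x % 2 = 1 % 2
    omega

end Pool.Agent.SM
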